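import Mathlib

open Finset

namespace Pool.Agent.Results.MP_2d87f2_co.Blowup

/-- The set of edges of `G` with exactly one endpoint in `A`. -/
def edgeBoundary {V : Type} (G : SimpleGraph V) (A : Finset V) : Set (Sym2 V) :=
  {e | e ∈ G.edgeSet ∧ ∃ u ∈ A, ∃ v, v ∉ A ∧ e = s(u, v)}

/-- The Cheeger constant: the infimum of `|∂A| / |A|` over finite nonempty sets `A`. -/
noncomputable def cheeger {V : Type} (G : SimpleGraph V) : ℝ :=
  sInf {r : ℝ | ∃ A : Finset V, A.Nonempty ∧ r = ((edgeBoundary G A).ncard : ℝ) / (A.card : ℝ)}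

/-- Every two distinct vertices of `S` are at distance at least `k`. -/
def Separated {V : Type} (G : SimpleGraph V) (k : ℕ) (S : Set V) : Prop :=
  ∀ u ∈ S, ∀ v ∈ S, u ≠ v → k ≤ G.dist u v

/-- A `k`-net: a maximal `k`-separated set of vertices. -/
def IsNet {V : Type} (G : SimpleGraph V) (k : ℕ) (S : Set V) : Prop :=
  Maximal (Separated G k) S

/-- The net graph of a set `S`: distinct vertices of `S` are adjacent when their distance
in `G` is at most `2 * k`. -/
def netGraph {V : Type} (G : SimpleGraph V) (k : ℕ) (S : Set V) : SimpleGraph S where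
  Adj u v := u ≠ v ∧ G.dist (u : V) (v : V) ≤ 2 * k
  symm := ⟨fun u v h => ⟨h.1.symm, by rw [SimpleGraph.dist_comm]; exact h.2⟩⟩
  loopless := ⟨fun u h => h.1 rfl⟩

/-- `G` is vertex-transitive. -/
def VertexTransitive {V : Type} (G : SimpleGraph V) : Prop :=
  ∀ u v : V, ∃ φ : G ≃g G, φ u = v

/-- `G` is locally finite. -/
def LocFinite {V : Type} (G : SimpleGraph V) : Prop := ∀ v : V, (G.neighborSet v).Finite

/-! The graph: the free group on two letters, each vertex blown up to a clique. -/

abbrev F : Type := FreeGroup (Fin 2)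

abbrev W (m : ℕ) : Type := F × Fin m

def gr (m : ℕ) : SimpleGraph (W m) where
  Adj x y := x ≠ y ∧ (y.1 * x.1⁻¹).norm ≤ 1
  symm := ⟨fun x y h => ⟨h.1.symm, by
    have := h.2
    rw [← FreeGroup.norm_inv_eq] at this
    simpa using this⟩⟩
  loopless := ⟨fun x h => h.1 rfl⟩

theorem gr_adj (m : ℕ) (x y : W m) : (gr m).Adj x y ↔ x ≠ y ∧ (y.1 * x.1⁻¹).norm ≤ 1 := Iff.rfl

theorem norm_le_walk (m : ℕ) (x y : W m) (p : (gr m).Walk x y) :
    (y.1 * x.1⁻¹).norm ≤ p.length := by
  induction p with
  | nil => simp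
  | @cons u v w h p ih =>
    have h1 := h.2
    have h2 : w.1 * u.1⁻¹ = (w.1 * v.1⁻¹) * (v.1 * u.1⁻¹) := by group
    rw [h2, SimpleGraph.Walk.length_cons]
    exact (FreeGroup.norm_mul_le _ _).trans (Nat.add_le_add ih h1)

theorem reachable_one (m : ℕ) (i : Fin m) (L : List (Fin 2 × Bool)) (j : Fin m) :
    (gr m).Reachable ((1 : F), i) (FreeGroup.mk L, j) := by
  induction L generalizing j with
  | nil =>
    by_cases hij : i = j
    · subst hij
      exact SimpleGraph.Reachable.refl _
    · apply SimpleGraph.Adj.reachable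
      rw [gr_adj]
      refine ⟨?_, ?_⟩
      · intro h
        exact hij (congrArg Prod.snd h)
      · simp [← FreeGroup.one_eq_mk]
  | cons s L ih =>
    by_cases h : ((FreeGroup.mk L : F), j) = (FreeGroup.mk (s :: L), j)
    · rw [← h]
      exact ih j
    · refine (ih j).trans (SimpleGraph.Adj.reachable ?_)
      rw [gr_adj]
      refine ⟨h, ?_⟩
      have e : (FreeGroup.mk (s :: L) : F) * (FreeGroup.mk L)⁻¹ = FreeGroup.mk [s] := by
        rw [mul_inv_eq_iff_eq_mul, FreeGroup.mul_mk]
        rfl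
      simp only [e]
      exact FreeGroup.norm_mk_le

theorem connected (m : ℕ) [NeZero m] : (gr m).Connected := by
  have h : ∀ x : W m, (gr m).Reachable ((1 : F), (0 : Fin m)) x := by
    rintro ⟨v, j⟩
    have := reachable_one m 0 v.toWord j
    rwa [FreeGroup.mk_toWord] at this
  exact { preconnected := fun x y => (h x).symm.trans (h y), nonempty := ⟨((1 : F), 0)⟩ }

theorem norm_le_dist (m : ℕ) [NeZero m] (x y : W m) :
    (y.1 * x.1⁻¹).norm ≤ (gr m).dist x y := by
  obtain ⟨p, hp⟩ := (connected m).exists_walk_length_eq_dist x y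
  rw [← hp]
  exact norm_le_walk m x y p

theorem ball_finite (n : ℕ) : {x : F | x.norm ≤ n}.Finite := by
  have h1 : {l : List (Fin 2 × Bool) | l.length ≤ n}.Finite := List.finite_length_le _ n
  exact Set.Finite.of_finite_image (f := FreeGroup.toWord)
    (h1.subset (by rintro _ ⟨x, hx, rfl⟩; exact hx)) (FreeGroup.toWord_injective.injOn)

theorem locFinite (m : ℕ) : LocFinite (gr m) := by
  intro x
  have h1 : ({y : F | y.norm ≤ 1} ×ˢ (Set.univ : Set (Fin m))).Finite :=
    (ball_finite 1).prod Set.finite_univ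
  refine Set.Finite.of_finite_image (f := fun y : W m => (y.1 * x.1⁻¹, y.2)) (h1.subset ?_) ?_
  · rintro _ ⟨y, hy, rfl⟩
    exact ⟨hy.2, Set.mem_univ _⟩
  · intro a _ b _ hab
    simp only [Prod.mk.injEq, mul_left_inj] at hab
    exact Prod.ext hab.1 hab.2

theorem transitive (m : ℕ) : VertexTransitive (gr m) := by
  intro x y
  refine ⟨{ toEquiv := Equiv.prodCongr (Equiv.mulRight (x.1⁻¹ * y.1)) (Equiv.swap x.2 y.2),
            map_rel_iff' := ?_ }, ?_⟩
  · intro a b
    simp only [gr_adj]
    constructor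
    · rintro ⟨h1, h2⟩
      refine ⟨fun h => h1 (by rw [h]), ?_⟩
      simpa [mul_assoc] using h2
    · rintro ⟨h1, h2⟩
      refine ⟨fun h => h1 ((Equiv.injective _) h), ?_⟩
      simpa [mul_assoc] using h2
  · change (Equiv.prodCongr (Equiv.mulRight (x.1⁻¹ * y.1)) (Equiv.swap x.2 y.2)) x = y
    ext
    · simp
    · simp


/-! Two children of each reduced word. -/

def other : List (Fin 2 × Bool) → Fin 2
  | [] => 0
  | (a :: _) => a.1 + 1

def child (v : F) (b : Bool) : F := FreeGroup.mk ((other v.toWord, b) :: v.toWord)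

theorem toWord_child (v : F) (b : Bool) :
    (child v b).toWord = (other v.toWord, b) :: v.toWord := by
  unfold child
  rw [FreeGroup.toWord_mk, FreeGroup.reduce.cons, FreeGroup.reduce_toWord]
  rcases h : v.toWord with _ | ⟨a, L⟩
  · rfl
  · have h1 : a.1 + 1 ≠ a.1 := by
      intro h
      have : ∀ c : Fin 2, c + 1 ≠ c := by decide
      exact this _ h
    simp [other, h1]

theorem child_injective (v w : F) (b c : Bool) (h : child v b = child w c) :
    v = w ∧ b = c := by
  have h1 := congrArg FreeGroup.toWord h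
  rw [toWord_child, toWord_child] at h1
  simp only [List.cons.injEq, Prod.mk.injEq] at h1
  exact ⟨FreeGroup.toWord_injective h1.2, h1.1.2⟩

theorem child_norm (v : F) (b : Bool) : (child v b * v⁻¹).norm ≤ 1 := by
  have e1 : ∀ (a : Fin 2 × Bool) (L : List (Fin 2 × Bool)),
      (FreeGroup.mk (a :: L) : F) = FreeGroup.mk [a] * FreeGroup.mk L := by
    intro a L
    rw [FreeGroup.mul_mk]
    rfl
  have e : child v b * v⁻¹ = FreeGroup.mk [(other v.toWord, b)] := by
    rw [mul_inv_eq_iff_eq_mul]
    unfold child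
    rw [e1, FreeGroup.mk_toWord]
  rw [e]
  exact FreeGroup.norm_mk_le

theorem child_ne (v : F) (b : Bool) : child v b ≠ v := by
  intro h
  have h1 := congrArg (fun x : F => x.toWord.length) h
  simp only [toWord_child, List.length_cons] at h1
  omega

theorem edgeBoundary_finite {V : Type} (G : SimpleGraph V) (hG : LocFinite G) (A : Finset V) :
    (edgeBoundary G A).Finite := by
  have h1 : (⋃ x ∈ A, (fun y => s(x, y)) '' G.neighborSet x).Finite :=
    Set.Finite.biUnion A.finite_toSet (fun x _ => (hG x).image _)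
  refine h1.subset ?_
  rintro e ⟨he, u, hu, v, hv, rfl⟩
  rw [Set.mem_iUnion₂]
  exact ⟨u, hu, v, he, rfl⟩

theorem boundary_lower (m : ℕ) (A : Finset (W m)) :
    m * A.card ≤ (edgeBoundary (gr m) A).ncard := by
  classical
  set P : Finset (W m × (Bool × Fin m)) := A ×ˢ Finset.univ with hP
  set φ : W m × (Bool × Fin m) → W m × W m :=
    fun q => (q.1, (child q.1.1 q.2.1, q.2.2)) with hφ
  have hφinj : Function.Injective φ := by
    rintro ⟨x, b, j⟩ ⟨x', b', j'⟩ h
    simp only [hφ, Prod.mk.injEq] at h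
    obtain ⟨rfl, h2, rfl⟩ := h
    rw [(child_injective _ _ _ _ h2).2]
  set T : Finset (W m × W m) := P.image φ with hT
  have hTcard : T.card = A.card * (2 * m) := by
    rw [hT, Finset.card_image_of_injective _ hφinj, hP, Finset.card_product]
    simp
  have hTmem : ∀ q ∈ T, q.1 ∈ A ∧ ∃ b, q.2.1 = child q.1.1 b := by
    intro q hq
    rw [hT, Finset.mem_image] at hq
    obtain ⟨a, ha, rfl⟩ := hq
    rw [hP, Finset.mem_product] at ha
    exact ⟨ha.1, a.2.1, rfl⟩
  have hin : (T.filter (fun q => q.2 ∈ A)).card ≤ A.card * m := by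
    have h1 : (A ×ˢ (Finset.univ : Finset (Fin m))).card = A.card * m := by
      rw [Finset.card_product]
      simp
    rw [← h1]
    refine Finset.card_le_card_of_injOn (fun q => (q.2, q.1.2)) ?_ ?_
    · intro q hq
      rw [Finset.mem_coe, Finset.mem_filter] at hq
      rw [Finset.mem_coe, Finset.mem_product]
      exact ⟨hq.2, Finset.mem_univ _⟩
    · intro q hq q' hq' h
      rw [Finset.mem_coe, Finset.mem_filter] at hq hq'
      simp only [Prod.mk.injEq] at h
      obtain ⟨-, b, hb⟩ := hTmem q hq.1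
      obtain ⟨-, b', hb'⟩ := hTmem q' hq'.1
      have h3 : child q.1.1 b = child q'.1.1 b' := by rw [← hb, ← hb', h.1]
      have h4 := (child_injective _ _ _ _ h3).1
      exact Prod.ext (Prod.ext h4 h.2) h.1
  have hout : A.card * m ≤ (T.filter (fun q => q.2 ∉ A)).card := by
    have h1 := Finset.card_filter_add_card_filter_not (s := T) (fun q => q.2 ∈ A)
    have h2 : A.card * (2 * m) = A.card * m + A.card * m := by ring
    omega
  have hle : (T.filter (fun q => q.2 ∉ A)).card ≤ (edgeBoundary (gr m) A).ncard := by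
    rw [← Set.ncard_coe_finset]
    refine Set.ncard_le_ncard_of_injOn (fun q => s(q.1, q.2)) ?_ ?_
      (edgeBoundary_finite _ (locFinite m) A)
    · intro q hq
      rw [Finset.mem_coe, Finset.mem_filter] at hq
      obtain ⟨h1, b, hb⟩ := hTmem q hq.1
      refine ⟨?_, q.1, h1, q.2, hq.2, rfl⟩
      rw [SimpleGraph.mem_edgeSet, gr_adj]
      refine ⟨fun h => hq.2 (h ▸ h1), ?_⟩
      rw [hb]
      exact child_norm _ _
    · intro q hq q' hq' h
      rw [Finset.mem_coe, Finset.mem_filter] at hq hq'
      simp only [Sym2.eq_iff] at h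
      rcases h with h | h
      · exact Prod.ext h.1 h.2
      · exact absurd (h.1 ▸ (hTmem q hq.1).1) hq'.2
  calc m * A.card = A.card * m := mul_comm _ _
    _ ≤ _ := hout.trans hle

theorem cheeger_lower (m : ℕ) [NeZero m] : (m : ℝ) ≤ cheeger (gr m) := by
  refine le_csInf ⟨_, {((1 : F), (0 : Fin m))}, Finset.singleton_nonempty _, rfl⟩ ?_
  rintro r ⟨A, hA, rfl⟩
  have h1 : (0 : ℝ) < A.card := by exact_mod_cast hA.card_pos
  rw [le_div_iff₀ h1]
  exact_mod_cast boundary_lower m A

/-! The net graphs. -/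

/-- The number of elements of the free group of word length at most `n`. -/
noncomputable def ballCard (n : ℕ) : ℕ := {x : F | x.norm ≤ n}.ncard

theorem cheeger_upper (m k : ℕ) [NeZero m] (hk : 2 ≤ k) (S : Set (W m))
    (hS : IsNet (gr m) k S) : cheeger (netGraph (gr m) k S) ≤ ballCard (2 * k) := by
  classical
  have hne : S.Nonempty := by
    by_contra h
    rw [Set.not_nonempty_iff_eq_empty] at h
    have h1 : Separated (gr m) k {((1 : F), (0 : Fin m))} := by
      intro u hu v hv huv
      exact absurd (hu.trans hv.symm) huv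
    have h2 := hS.2 h1 (by rw [h]; exact Set.empty_subset _)
    have h3 : ((1 : F), (0 : Fin m)) ∈ S := h2 rfl
    rw [h] at h3
    exact h3
  obtain ⟨s0, hs0⟩ := hne
  set s : S := ⟨s0, hs0⟩ with hs
  have hb : BddBelow {r : ℝ | ∃ A : Finset S, A.Nonempty ∧
      r = ((edgeBoundary (netGraph (gr m) k S) A).ncard : ℝ) / (A.card : ℝ)} := by
    refine ⟨0, ?_⟩
    rintro r ⟨A, -, rfl⟩
    positivity
  refine (csInf_le hb ⟨{s}, Finset.singleton_nonempty _, rfl⟩).trans ?_
  rw [Finset.card_singleton, Nat.cast_one, div_one]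
  have hsep : ∀ y y' : S, (y : W m).1 = (y' : W m).1 → y = y' := by
    intro y y' h
    by_contra hne
    have hne' : (y : W m) ≠ (y' : W m) := fun h => hne (Subtype.ext h)
    have h1 := hS.1 _ y.2 _ y'.2 hne'
    have h2 : (gr m).Adj (y : W m) (y' : W m) := by
      rw [gr_adj]
      refine ⟨hne', ?_⟩
      rw [h]
      simp
    rw [SimpleGraph.dist_eq_one_iff_adj.2 h2] at h1
    omega
  have hle : (edgeBoundary (netGraph (gr m) k S) {s}).ncard ≤
      {x : F | x.norm ≤ 2 * k}.ncard := by
    have h1 : ∀ e ∈ edgeBoundary (netGraph (gr m) k S) {s},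
        ∃ y : S, e = s(s, y) ∧ (((y : W m).1) * (s : W m).1⁻¹).norm ≤ 2 * k := by
      rintro e ⟨he, u, hu, v, hv, rfl⟩
      have hu' : u = s := Finset.mem_singleton.1 hu
      rw [hu'] at he ⊢
      refine ⟨v, rfl, ?_⟩
      have h2 : (netGraph (gr m) k S).Adj s v := he
      exact (norm_le_dist m _ _).trans h2.2
    have : Nonempty S := ⟨s⟩
    choose! g hg1 hg2 using h1
    refine Set.ncard_le_ncard_of_injOn (fun e => ((g e : W m).1) * (s : W m).1⁻¹) ?_ ?_
      (ball_finite _)
    · intro e he
      exact hg2 e he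
    · intro e he e' he' h
      have h3 : (g e : W m).1 = (g e' : W m).1 := mul_right_cancel h
      rw [hg1 e he, hg1 e' he', hsep _ _ h3]
  exact_mod_cast hle

/-- Nets exist in every graph. -/
theorem exists_net {V : Type} (G : SimpleGraph V) (k : ℕ) : ∃ S, IsNet G k S := by
  obtain ⟨S, hS⟩ := zorn_subset {S | Separated G k S} (by
    intro c hc hchain
    refine ⟨⋃₀ c, ?_, fun s hs => Set.subset_sUnion_of_mem hs⟩
    rintro u ⟨s, hs, hus⟩ v ⟨t, ht, hvt⟩ huv
    rcases hchain.total hs ht with h | h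
    · exact hc ht u (h hus) v hvt huv
    · exact hc hs u hus v (h hvt) huv)
  exact ⟨S, hS⟩

/-- For every `k ≥ 2` and every `C > 0` there is an infinite vertex-transitive graph `G` all of
whose `k`-net graphs have Cheeger constant smaller than `C` times that of `G`. -/
theorem result :
    ∀ (k : ℕ), 2 ≤ k → ∀ C : ℝ, 0 < C →
      ∃ (V : Type) (G : SimpleGraph V), Infinite V ∧ G.Connected ∧ LocFinite G ∧
        VertexTransitive G ∧ (∃ S, IsNet G k S) ∧
        ∀ S, IsNet G k S → cheeger (netGraph G k S) < C * cheeger G := by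
  intro k hk C hC
  obtain ⟨m, hm⟩ := exists_nat_gt ((ballCard (2 * k) : ℝ) / C)
  have hm0 : 0 < m := by
    have h1 : (0 : ℝ) ≤ (ballCard (2 * k) : ℝ) / C := by positivity
    exact_mod_cast h1.trans_lt hm
  have : NeZero m := ⟨hm0.ne'⟩
  refine ⟨W m, gr m, ?_, connected m, locFinite m, transitive m, exists_net _ _, ?_⟩
  · have h1 : Infinite F := by
      rw [← not_finite_iff_infinite]
      intro hf
      have h2 : Function.Injective (fun q : F × Bool => child q.1 q.2) := by
        rintro ⟨v, b⟩ ⟨w, c⟩ h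
        obtain ⟨rfl, rfl⟩ := child_injective _ _ _ _ h
        rfl
      have h3 := Nat.card_le_card_of_injective _ h2
      rw [Nat.card_prod] at h3
      have h4 : 0 < Nat.card F := Nat.card_pos
      have h5 : Nat.card Bool = 2 := by simp
      rw [h5] at h3
      omega
    infer_instance
  · intro S hS
    calc cheeger (netGraph (gr m) k S) ≤ ballCard (2 * k) := cheeger_upper m k hk S hS
      _ < C * m := by
        rw [div_lt_iff₀ hC] at hm
        linarith
      _ ≤ C * cheeger (gr m) := by
        exact mul_le_mul_of_nonneg_left (cheeger_lower m) hC.le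

end Pool.Agent.Results.MP_2d87f2_co.Blowup
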